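import Mathlib
import Pool.Agent.Lib.MP_3a8d2e_lc.Defs
import Pool.Agent.Lib.MP_3a8d2e_lc.Mem
import Pool.Agent.Lib.MP_3a8d2e_lc.Main

/-!
#PolyaOrbits is complete for #P under AP-reductions, for every fixed integer `k ≥ 2`.
-/

set_option autoImplicit false

namespace Pool.Agent.Results.MP_3a8d2e_lc.Complete

open Pool.Agent.Lib.MP_3a8d2e_lc

theorem result (k C : ℕ) (hk : 2 ≤ k) (hC : 1 ≤ C) :
    ∃ f : List Bool → ℕ,
      (∀ I : Inst, I.gens.length ≤ C * I.m → f I.code = I.val k) ∧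
      (∀ w, w ∉ instances C → f w = 0) ∧
      InSharpP f ∧ ∀ h : List Bool → ℕ, InSharpP h → APRed h (instances C) f := by
  obtain ⟨f, h1, h2, h3⟩ := polya_sharpP k C
  exact ⟨f, h1, h2, h3, hardness k C hk hC f h1⟩

end Pool.Agent.Results.MP_3a8d2e_lc.Complete
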